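import Mathlib

set_option autoImplicit false

namespace Pool.Agent.R493.LD

open Finset NumberField Filter Topology

/-- Leopoldt's conjecture for the number field `K` and the prime `p` (the form of the frozen
statement). -/
def Leopoldt (K : Type) [Field K] [NumberField K] (p : ℕ) [Fact p.Prime] : Prop :=
  ∀ (n : ℕ) (ε : Fin n → (𝓞 K)ˣ),
    (∀ i, ((ε i : 𝓞 K) - 1) ∈ (Ideal.span {((p : ℕ) : 𝓞 K)}).radical) →
    (∀ c : Fin n → ℤ, ∏ i, ε i ^ c i = 1 → c = 0) →
    ∀ (a : Fin n → PadicInt p) (m : ℕ → Fin n → ℤ),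
      (∀ i, Tendsto (fun k => ((m k i : ℤ) : PadicInt p)) atTop (𝓝 (a i))) →
      (∀ N : ℕ, ∀ᶠ k in atTop,
        ((p : ℕ) : 𝓞 K) ^ N ∣ (((∏ i, ε i ^ m k i : (𝓞 K)ˣ) : 𝓞 K) - 1)) →
      a = 0

/-- a rational matrix trick: a `ℤ`-independent family of integer vectors is independent over `ℤ_p` -/
lemma padic_indep_of_int_indep {s n : ℕ} (p : ℕ) [Fact p.Prime] (B : Fin s → Fin n → ℤ)
    (hB : ∀ c : Fin s → ℤ, (∀ j, ∑ i, c i * B i j = 0) → c = 0)
    (a : Fin s → ℤ_[p]) (ha : ∀ j, ∑ i, a i * (B i j : ℤ_[p]) = 0) : a = 0 := by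
  have h1 : LinearIndependent ℤ (fun i => fun j => (B i j : ℚ)) := by
    rw [Fintype.linearIndependent_iff]
    intro c hc
    have h2 : c = 0 := by
      apply hB
      intro j
      have h3 := congrFun hc j
      rw [Finset.sum_apply] at h3
      simp only [Pi.smul_apply, zsmul_eq_mul, Pi.zero_apply] at h3
      exact_mod_cast h3
    intro i
    rw [h2]; rfl
  have h2 : LinearIndependent ℚ (fun i => fun j => (B i j : ℚ)) :=
    (LinearIndependent.iff_fractionRing ℤ ℚ).1 h1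
  set f : (Fin s → ℚ) →ₗ[ℚ] (Fin n → ℚ) := Fintype.linearCombination ℚ (fun i => fun j => (B i j : ℚ)) with hf
  have h3 : LinearMap.ker f = ⊥ := by
    rw [Fintype.linearIndependent_iff] at h2
    rw [LinearMap.ker_eq_bot']
    intro c hc
    rw [hf, Fintype.linearCombination_apply] at hc
    exact funext (h2 c hc)
  obtain ⟨g, hg⟩ := LinearMap.exists_leftInverse_of_injective f h3
  -- matrix form
  have h4 : ∀ i l, ∑ j, (B i j : ℚ) * g (Pi.single j 1) l = if i = l then 1 else 0 := by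
    intro i l
    have h5 := congrFun (congrArg (fun φ => φ (Pi.single i (1 : ℚ))) hg) l
    simp only [LinearMap.comp_apply, LinearMap.id_apply] at h5
    have h6 : f (Pi.single i (1 : ℚ)) = ∑ j, (B i j : ℚ) • (Pi.single j (1 : ℚ) : Fin n → ℚ) := by
      rw [hf, Fintype.linearCombination_apply_single, one_smul]
      funext k
      rw [Finset.sum_apply]
      simp [Pi.single_apply]
    rw [h6, map_sum, Finset.sum_apply] at h5
    simp only [map_smul, Pi.smul_apply, smul_eq_mul] at h5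
    rw [h5, Pi.single_apply]
    by_cases h : i = l
    · simp [h]
    · simp [h, Ne.symm h]
  set φ := algebraMap ℤ_[p] ℚ_[p] with hφ
  have h5 : ∀ l, φ (a l) = 0 := by
    intro l
    have h6 : ∑ j, (∑ i, φ (a i) * (B i j : ℚ_[p])) * ((g (Pi.single j 1) l : ℚ) : ℚ_[p]) = 0 := by
      apply Finset.sum_eq_zero
      intro j _
      have h7 := congrArg φ (ha j)
      rw [map_sum, map_zero] at h7
      rw [Finset.sum_congr rfl fun i _ => show φ (a i) * (B i j : ℚ_[p]) = φ (a i * (B i j : ℤ_[p])) by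
        rw [map_mul, map_intCast], h7, zero_mul]
    simp only [Finset.sum_mul] at h6
    rw [Finset.sum_comm] at h6
    have h8 : ∀ i, ∑ j, φ (a i) * (B i j : ℚ_[p]) * ((g (Pi.single j 1) l : ℚ) : ℚ_[p])
        = φ (a i) * (if i = l then 1 else 0) := by
      intro i
      have h9 := congrArg (fun x : ℚ => (x : ℚ_[p])) (h4 i l)
      push_cast at h9
      have h10 : (if i = l then (1 : ℚ_[p]) else 0) = (((if i = l then (1 : ℚ) else 0) : ℚ) : ℚ_[p]) := by
        split_ifs <;> simp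
      rw [h10, ← h9, Finset.mul_sum]
      refine Finset.sum_congr rfl fun j _ => by ring
    rw [Finset.sum_congr rfl fun i _ => h8 i] at h6
    simpa using h6
  funext l
  exact (IsFractionRing.injective ℤ_[p] ℚ_[p]) (by rw [← hφ, h5 l]; simp)


open NumberField.Units

theorem zpow_sum' {G ι : Type*} [CommGroup G] (s : Finset ι) (x : G) (f : ι → ℤ) :
    x ^ (∑ i ∈ s, f i) = ∏ i ∈ s, x ^ f i := by
  classical
  induction s using Finset.induction_on with
  | empty => simp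
  | insert a s ha ih => rw [Finset.sum_insert ha, Finset.prod_insert ha, zpow_add, ih]

/-- Powers of fundamental units, congruent to one, generate a subgroup of finite index. -/
theorem exists_basis (K : Type) [Field K] [NumberField K] (p : ℕ) [Fact p.Prime] :
    ∃ (M s : ℕ) (ζ : Fin s → (𝓞 K)ˣ), 0 < M ∧
      (∀ t, ((ζ t : 𝓞 K) - 1) ∈ (Ideal.span {((p : ℕ) : 𝓞 K)}).radical) ∧
      (∀ c : Fin s → ℤ, ∏ t, ζ t ^ c t = 1 → c = 0) ∧
      ∀ u : (𝓞 K)ˣ, ∃ e : Fin s → ℤ, u ^ M = ∏ t, ζ t ^ e t := by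
  classical
  have hp : (Ideal.span {((p : ℕ) : 𝓞 K)}) ≠ ⊥ := by
    rw [Ne, Ideal.span_singleton_eq_bot]
    exact_mod_cast (Fact.out : p.Prime).ne_zero
  have hfin : Finite (𝓞 K ⧸ Ideal.span {((p : ℕ) : 𝓞 K)}) :=
    Ideal.finiteQuotientOfFreeOfNeBot _ hp
  have hfu : Finite (𝓞 K ⧸ Ideal.span {((p : ℕ) : 𝓞 K)})ˣ := inferInstance
  obtain ⟨q, hq⟩ : ∃ q, q = Nat.card (𝓞 K ⧸ Ideal.span {((p : ℕ) : 𝓞 K)})ˣ := ⟨_, rfl⟩
  have hq0 : 0 < q := by rw [hq]; exact Nat.card_pos
  obtain ⟨w, hw⟩ : ∃ w, w = Nat.card (torsion K) := ⟨_, rfl⟩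
  have hw0 : 0 < w := by rw [hw]; exact Nat.card_pos
  have hone : ∀ (u : (𝓞 K)ˣ) (r : ℕ), q ∣ r →
      (((u ^ r : (𝓞 K)ˣ) : 𝓞 K) - 1) ∈ Ideal.span {((p : ℕ) : 𝓞 K)} := by
    intro u r hr
    obtain ⟨k, rfl⟩ := hr
    rw [← Ideal.Quotient.eq_zero_iff_mem, map_sub, map_one, sub_eq_zero]
    have h1 : (Units.map (Ideal.Quotient.mk (Ideal.span {((p : ℕ) : 𝓞 K)})).toMonoidHom u) ^
        (q * k) = 1 := by
      rw [pow_mul, hq, pow_card_eq_one', one_pow]
    have h2 := congrArg (Units.val) h1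
    rw [← map_pow] at h2
    exact h2
  have hfind : ∀ c : Fin (rank K) → ℤ, ∏ t, fundSystem K t ^ c t = 1 → c = 0 := by
    intro c hc
    obtain ⟨y, -, hy⟩ := exist_unique_eq_mul_prod K (1 : (𝓞 K)ˣ)
    have h1 := hy (1, c) (by simp [hc])
    have h2 := hy (1, 0) (by simp)
    have h3 := h1.trans h2.symm
    exact congrArg Prod.snd h3
  refine ⟨q * w, rank K, fun t => fundSystem K t ^ (q * w), Nat.mul_pos hq0 hw0, ?_, ?_, ?_⟩
  · intro t
    exact Ideal.le_radical (hone _ _ (dvd_mul_right q w))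
  · intro c hc
    have h1 : ∏ t, fundSystem K t ^ (((q * w : ℕ) : ℤ) * c t) = 1 := by
      rw [← hc]
      refine Finset.prod_congr rfl fun t _ => ?_
      rw [zpow_mul, zpow_natCast]
    have h2 := hfind _ h1
    funext t
    have h3 := congrFun h2 t
    simp only [Pi.zero_apply] at h3 ⊢
    rcases mul_eq_zero.1 h3 with h4 | h4
    · exact absurd (by exact_mod_cast h4) (Nat.mul_pos hq0 hw0).ne'
    · exact h4
  · intro u
    obtain ⟨⟨z, e⟩, h, -⟩ := exist_unique_eq_mul_prod K u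
    refine ⟨e, ?_⟩
    have hz : (z : (𝓞 K)ˣ) ^ (q * w) = 1 := by
      have h1 : z ^ w = 1 := by rw [hw]; exact pow_card_eq_one'
      have h2 : (z : (𝓞 K)ˣ) ^ w = 1 := by exact_mod_cast congrArg Subtype.val h1
      rw [mul_comm, pow_mul, h2, one_pow]
    simp only at h
    rw [h, mul_pow, hz, one_mul, ← Finset.prod_pow]
    refine Finset.prod_congr rfl fun t _ => ?_
    show (fundSystem K t ^ e t) ^ (q * w) = (fundSystem K t ^ (q * w)) ^ e t
    rw [← zpow_natCast, ← zpow_natCast, ← zpow_mul, ← zpow_mul, mul_comm]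

/-- Leopoldt's conjecture for arbitrary units: a `ℤ_p`-relation is a combination of relations. -/
theorem leopoldt_gen {K : Type} [Field K] [NumberField K] {p : ℕ} [Fact p.Prime]
    (hL : Leopoldt K p) (n : ℕ) :
    ∀ η : Fin n → (𝓞 K)ˣ, ∃ (s : ℕ) (e : Fin n → Fin s → ℤ),
      (∀ c : Fin n → ℤ, (∀ t, ∑ i, c i * e i t = 0) → IsOfFinOrder (∏ i, η i ^ c i)) ∧
      ∀ (a : Fin n → PadicInt p) (m : ℕ → Fin n → ℤ),
        (∀ i, Tendsto (fun k => ((m k i : ℤ) : PadicInt p)) atTop (𝓝 (a i))) →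
        (∀ N : ℕ, ∀ᶠ k in atTop,
          ((p : ℕ) : 𝓞 K) ^ N ∣ (((∏ i, η i ^ m k i : (𝓞 K)ˣ) : 𝓞 K) - 1)) →
        ∀ t, ∑ i, a i * (e i t : ℤ_[p]) = 0 := by
  classical
  intro η
  obtain ⟨M, s, ζ, hM, hζ1, hζ2, hζ3⟩ := exists_basis K p
  choose e he using fun i => hζ3 (η i)
  have hprod : ∀ c : Fin n → ℤ, (∏ i, η i ^ c i) ^ M = ∏ t, ζ t ^ (∑ i, c i * e i t) := by
    intro c
    rw [← Finset.prod_pow]
    have h1 : ∀ i, (η i ^ c i) ^ M = ∏ t, ζ t ^ (c i * e i t) := by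
      intro i
      rw [← zpow_natCast, ← zpow_mul, mul_comm, zpow_mul, zpow_natCast, he, ← Finset.prod_zpow]
      refine Finset.prod_congr rfl fun t _ => ?_
      rw [← zpow_mul, mul_comm]
    rw [Finset.prod_congr rfl fun i _ => h1 i, Finset.prod_comm]
    refine Finset.prod_congr rfl fun t _ => ?_
    rw [zpow_sum']
  refine ⟨s, e, ?_, ?_⟩
  · intro c hc
    rw [isOfFinOrder_iff_pow_eq_one]
    refine ⟨M, hM, ?_⟩
    rw [hprod]
    refine Finset.prod_eq_one fun t _ => ?_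
    rw [hc t, zpow_zero]
  · intro a m ha hm t
    have h1 := hL s ζ hζ1 hζ2 (fun t => ∑ i, a i * (e i t : ℤ_[p]))
      (fun k t => ∑ i, m k i * e i t) (by
        intro t
        push_cast
        exact tendsto_finsetSum _ fun i _ => (ha i).mul_const _) (by
        intro N
        filter_upwards [hm N] with k hk
        rw [← hprod, Units.val_pow_eq_pow_val]
        exact hk.trans (sub_one_dvd_pow_sub_one _ _))
    exact congrFun h1 t

end Pool.Agent.R493.LD
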