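import Pool.Agent.R493.LD.A

set_option autoImplicit false

namespace Pool.Agent.R493.LD

open Finset NumberField Filter Topology

section

variable {L : Type} [Field L] [NumberField L]

/-- The action of an automorphism on the units. -/
noncomputable def act (g : L ≃ₐ[ℚ] L) : (𝓞 L)ˣ →* (𝓞 L)ˣ :=
  Units.map (RingOfIntegers.mapRingEquiv (g : L ≃+* L)).toMonoidHom

theorem act_coe (g : L ≃ₐ[ℚ] L) (u : (𝓞 L)ˣ) :
    algebraMap (𝓞 L) L (act g u : 𝓞 L) = g (algebraMap (𝓞 L) L (u : 𝓞 L)) := rfl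

theorem units_ext {u v : (𝓞 L)ˣ}
    (h : algebraMap (𝓞 L) L (u : 𝓞 L) = algebraMap (𝓞 L) L (v : 𝓞 L)) : u = v :=
  Units.ext (FaithfulSMul.algebraMap_injective (𝓞 L) L h)

theorem act_mul (g h : L ≃ₐ[ℚ] L) (u : (𝓞 L)ˣ) : act (g * h) u = act g (act h u) := by
  apply units_ext
  rw [act_coe, act_coe, act_coe]
  rfl

theorem act_one (u : (𝓞 L)ˣ) : act (1 : L ≃ₐ[ℚ] L) u = u := by
  apply units_ext
  rw [act_coe]
  rfl

/-- The norm for a finite group of automorphisms. -/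
noncomputable def nm (H : Subgroup (L ≃ₐ[ℚ] L)) : (𝓞 L)ˣ →* (𝓞 L)ˣ :=
  open Classical in ∏ h : H, act (h : L ≃ₐ[ℚ] L)

theorem nm_apply (H : Subgroup (L ≃ₐ[ℚ] L)) [Fintype H] (u : (𝓞 L)ˣ) :
    nm H u = ∏ h : H, act (h : L ≃ₐ[ℚ] L) u := by
  unfold nm
  rw [MonoidHom.finsetProd_apply]
  congr 1
  congr 1
  exact Subsingleton.elim _ _

theorem act_nm (H : Subgroup (L ≃ₐ[ℚ] L)) (u : (𝓞 L)ˣ) (k : L ≃ₐ[ℚ] L) (hk : k ∈ H) :
    act k (nm H u) = nm H u := by
  classical
  rw [nm_apply, map_prod]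
  exact Fintype.prod_equiv (Equiv.mulLeft (⟨k, hk⟩ : H)) _ _ (fun h => by
    rw [← act_mul]; rfl)

/-- The norm comes from the fixed field. -/
theorem exists_fixed (H : Subgroup (L ≃ₐ[ℚ] L)) (u : (𝓞 L)ˣ) (hu : ∀ k ∈ H, act k u = u) :
    ∃ w : (𝓞 (IntermediateField.fixedField H))ˣ,
      algebraMap (IntermediateField.fixedField H) L
        (algebraMap (𝓞 (IntermediateField.fixedField H)) (IntermediateField.fixedField H)
          (w : 𝓞 (IntermediateField.fixedField H))) = algebraMap (𝓞 L) L (u : 𝓞 L) := by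
  have key : ∀ v : (𝓞 L)ˣ, (∀ k ∈ H, act k v = v) →
      ∃ w : 𝓞 (IntermediateField.fixedField H),
        algebraMap (IntermediateField.fixedField H) L
          (algebraMap (𝓞 (IntermediateField.fixedField H)) (IntermediateField.fixedField H) w) =
            algebraMap (𝓞 L) L (v : 𝓞 L) := by
    intro v hv
    have hmem : algebraMap (𝓞 L) L (v : 𝓞 L) ∈ IntermediateField.fixedField H := by
      rw [IntermediateField.mem_fixedField_iff]
      intro k hk
      have h1 := hv k hk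
      rw [← act_coe, h1]
    have hint : IsIntegral ℤ (⟨algebraMap (𝓞 L) L (v : 𝓞 L), hmem⟩ :
        IntermediateField.fixedField H) := by
      have h2 : IsIntegral ℤ (algebraMap (𝓞 L) L (v : 𝓞 L)) := RingOfIntegers.isIntegral_coe _
      exact (isIntegral_algebraMap_iff
        (algebraMap (IntermediateField.fixedField H) L).injective).1 h2
    exact ⟨⟨_, hint⟩, rfl⟩
  obtain ⟨w, hw⟩ := key u hu
  obtain ⟨w', hw'⟩ := key u⁻¹ (fun k hk => by rw [map_inv, hu k hk])
  have h1 : w * w' = 1 := by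
    apply FaithfulSMul.algebraMap_injective (𝓞 (IntermediateField.fixedField H))
      (IntermediateField.fixedField H)
    apply (algebraMap (IntermediateField.fixedField H) L).injective
    rw [map_mul, map_mul, hw, hw', ← map_mul, Units.mul_inv, map_one, map_one, map_one]
  exact ⟨⟨w, w', h1, by rw [mul_comm]; exact h1⟩, hw⟩

theorem dvd_act (g : L ≃ₐ[ℚ] L) (x : (𝓞 L)ˣ) (q : ℕ) (h : (q : 𝓞 L) ∣ (x : 𝓞 L) - 1) :
    (q : 𝓞 L) ∣ (act g x : 𝓞 L) - 1 := by
  have h1 := map_dvd (RingOfIntegers.mapRingEquiv (g : L ≃+* L)) h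
  rw [map_natCast, map_sub, map_one] at h1
  exact h1

theorem dvd_prod {R ι : Type*} [CommRing R] (s : Finset ι) (y : ι → R) (q : R)
    (h : ∀ i ∈ s, q ∣ y i - 1) : q ∣ (∏ i ∈ s, y i) - 1 := by
  classical
  induction s using Finset.induction_on with
  | empty => simp
  | insert a s ha ih =>
    rw [Finset.prod_insert ha]
    have h1 := h a (Finset.mem_insert_self a s)
    have h2 := ih fun i hi => h i (Finset.mem_insert_of_mem hi)
    have h3 : y a * ∏ i ∈ s, y i - 1 = y a * (∏ i ∈ s, y i - 1) + (y a - 1) := by ring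
    rw [h3]
    exact dvd_add (h2.mul_left _) h1

theorem dvd_nm (H : Subgroup (L ≃ₐ[ℚ] L)) (g : L ≃ₐ[ℚ] L) (x : (𝓞 L)ˣ) (q : ℕ)
    (h : (q : 𝓞 L) ∣ (x : 𝓞 L) - 1) : (q : 𝓞 L) ∣ (nm H (act g x) : 𝓞 L) - 1 := by
  classical
  rw [nm_apply, Units.coe_prod]
  apply dvd_prod
  intro k _
  exact dvd_act _ _ q (dvd_act _ _ q h)

theorem dvd_descend {F L : Type} [Field F] [Field L] [Algebra F L] [NumberField F] [NumberField L]
    (q : ℕ) (hq : q ≠ 0) (w : 𝓞 F) (u : 𝓞 L)
    (hw : algebraMap F L (algebraMap (𝓞 F) F w) = algebraMap (𝓞 L) L u)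
    (h : (q : 𝓞 L) ∣ u - 1) : (q : 𝓞 F) ∣ w - 1 := by
  obtain ⟨z, hz⟩ := h
  have hqF : (q : F) ≠ 0 := by exact_mod_cast hq
  have h1 : algebraMap F L ((algebraMap (𝓞 F) F w - 1) / q) = algebraMap (𝓞 L) L z := by
    have h2 := congrArg (algebraMap (𝓞 L) L) hz
    rw [map_sub, map_one, map_mul, map_natCast] at h2
    have hqL : (q : L) ≠ 0 := by exact_mod_cast hq
    rw [map_div₀, map_sub, map_one, map_natCast, hw, h2]
    field_simp
  have hint : IsIntegral ℤ ((algebraMap (𝓞 F) F w - 1) / q : F) := by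
    have h2 : IsIntegral ℤ (algebraMap (𝓞 L) L z) := RingOfIntegers.isIntegral_coe _
    rw [← h1] at h2
    exact (isIntegral_algebraMap_iff (algebraMap F L).injective).1 h2
  obtain ⟨z', hz'⟩ : ∃ z' : 𝓞 F, algebraMap (𝓞 F) F z' = (algebraMap (𝓞 F) F w - 1) / q :=
    ⟨⟨_, hint⟩, rfl⟩
  refine ⟨z', ?_⟩
  apply FaithfulSMul.algebraMap_injective (𝓞 F) F
  rw [map_sub, map_one, map_mul, map_natCast, hz']
  field_simp

/-- **The descent criterion.** -/
theorem descent (p : ℕ) [Fact p.Prime] {ι : Type} [Fintype ι] (H : ι → Subgroup (L ≃ₐ[ℚ] L))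
    (hcrit : ∀ u : (𝓞 L)ˣ, (∀ i g, IsOfFinOrder (nm (H i) (act g u))) → IsOfFinOrder u)
    (hF : ∀ i, Leopoldt (IntermediateField.fixedField (H i)) p) : Leopoldt L p := by
  classical
  intro n ε hε hind a m ha hm
  -- the norms in the fixed fields
  have hη : ∀ (j : ι × (L ≃ₐ[ℚ] L)) (i : Fin n),
      ∃ w : (𝓞 (IntermediateField.fixedField (H j.1)))ˣ,
      algebraMap (IntermediateField.fixedField (H j.1)) L
        (algebraMap (𝓞 (IntermediateField.fixedField (H j.1)))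
          (IntermediateField.fixedField (H j.1))
          (w : 𝓞 (IntermediateField.fixedField (H j.1)))) =
            algebraMap (𝓞 L) L (nm (H j.1) (act j.2 (ε i)) : 𝓞 L) := by
    intro j i
    exact exists_fixed (H j.1) _ (fun k hk => act_nm _ _ k hk)
  choose η hη using hη
  -- the map to the units of `L`
  let Φ : ∀ j : ι × (L ≃ₐ[ℚ] L), (𝓞 (IntermediateField.fixedField (H j.1)))ˣ →* (𝓞 L)ˣ :=
    fun j => Units.map (algebraMap (𝓞 (IntermediateField.fixedField (H j.1))) (𝓞 L)).toMonoidHom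
  have hΦ : ∀ j i, Φ j (η j i) = nm (H j.1) (act j.2 (ε i)) := by
    intro j i
    apply units_ext
    rw [← hη]
    rfl
  have hΦc : ∀ j (c : Fin n → ℤ), Φ j (∏ i, η j i ^ c i) =
      nm (H j.1) (act j.2 (∏ i, ε i ^ c i)) := by
    intro j c
    rw [map_prod, map_prod, map_prod]
    refine Finset.prod_congr rfl fun i _ => ?_
    rw [map_zpow, map_zpow, map_zpow, hΦ]
  have hΦL : ∀ j (v : (𝓞 (IntermediateField.fixedField (H j.1)))ˣ),
      algebraMap (IntermediateField.fixedField (H j.1)) L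
        (algebraMap (𝓞 (IntermediateField.fixedField (H j.1)))
          (IntermediateField.fixedField (H j.1))
          (v : 𝓞 (IntermediateField.fixedField (H j.1)))) =
            algebraMap (𝓞 L) L (Φ j v : 𝓞 L) := fun j v => rfl
  choose s e h1 h2 using fun j : ι × (L ≃ₐ[ℚ] L) => leopoldt_gen (hF j.1) n (η j)
  have hae : ∀ j t, ∑ i, a i * (e j i t : ℤ_[p]) = 0 := by
    intro j t
    refine h2 j a m ha ?_ t
    intro N
    filter_upwards [hm N] with k hk
    have h3 := dvd_nm (H j.1) j.2 (∏ i, ε i ^ m k i) (p ^ N) (by rw [Nat.cast_pow]; exact hk)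
    rw [← hΦc] at h3
    have h4 := dvd_descend (p ^ N) (pow_ne_zero N (Fact.out : p.Prime).ne_zero) _ _ (hΦL j _) h3
    rw [Nat.cast_pow] at h4
    exact h4
  -- reindex
  obtain ⟨N, ⟨E⟩⟩ : ∃ N, Nonempty ((Σ j : ι × (L ≃ₐ[ℚ] L), Fin (s j)) ≃ Fin N) :=
    ⟨_, ⟨Fintype.equivFin _⟩⟩
  refine padic_indep_of_int_indep p (fun i x => e (E.symm x).1 i (E.symm x).2) ?_ a
    (fun x => hae _ _)
  intro c hc
  have h5 : ∀ j t, ∑ i, c i * e j i t = 0 := by
    have key : ∀ y : (Σ j : ι × (L ≃ₐ[ℚ] L), Fin (s j)), ∑ i, c i * e y.1 i y.2 = 0 := by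
      intro y
      obtain ⟨x, hx⟩ := E.symm.surjective y
      rw [← hx]
      exact hc x
    intro j t
    exact key ⟨j, t⟩
  have h6 : IsOfFinOrder (∏ i, ε i ^ c i) := by
    apply hcrit
    intro i g
    have h7 := h1 (i, g) c (h5 (i, g))
    have h8 := MonoidHom.isOfFinOrder (Φ (i, g)) h7
    rwa [hΦc] at h8
  rw [isOfFinOrder_iff_pow_eq_one] at h6
  obtain ⟨w, hw, h7⟩ := h6
  have h8 : ∏ i, ε i ^ ((w : ℤ) * c i) = 1 := by
    rw [← h7, ← Finset.prod_pow]
    refine Finset.prod_congr rfl fun i _ => ?_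
    rw [← zpow_natCast, ← zpow_mul, mul_comm]
  have h9 := hind _ h8
  funext i
  have h10 := congrFun h9 i
  simp only [Pi.zero_apply] at h10 ⊢
  rcases mul_eq_zero.1 h10 with h11 | h11
  · exact absurd (by exact_mod_cast h11) hw.ne'
  · exact h11

end

/-- Leopoldt's conjecture passes to subfields. -/
theorem leopoldt_sub {F L : Type} [Field F] [Field L] [Algebra F L] [NumberField F] [NumberField L]
    (p : ℕ) [Fact p.Prime] (h : Leopoldt L p) : Leopoldt F p := by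
  intro n ε hε hind a m ha hm
  let Ψ : (𝓞 F)ˣ →* (𝓞 L)ˣ := Units.map (algebraMap (𝓞 F) (𝓞 L)).toMonoidHom
  have hinj : Function.Injective Ψ := by
    intro x y hxy
    apply Units.ext
    have h1 : algebraMap (𝓞 F) (𝓞 L) (x : 𝓞 F) = algebraMap (𝓞 F) (𝓞 L) (y : 𝓞 F) :=
      congrArg Units.val hxy
    exact FaithfulSMul.algebraMap_injective (𝓞 F) (𝓞 L) h1
  have hval : ∀ x : (𝓞 F)ˣ, ((Ψ x : (𝓞 L)ˣ) : 𝓞 L) = algebraMap (𝓞 F) (𝓞 L) (x : 𝓞 F) :=
    fun x => rfl
  refine h n (fun i => Ψ (ε i)) ?_ ?_ a m ha ?_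
  · intro i
    obtain ⟨k, hk⟩ := hε i
    refine ⟨k, ?_⟩
    rw [Ideal.mem_span_singleton] at hk ⊢
    have h1 := map_dvd (algebraMap (𝓞 F) (𝓞 L)) hk
    rw [map_natCast, map_pow, map_sub, map_one] at h1
    exact h1
  · intro c hc
    apply hind
    apply hinj
    rw [map_prod, map_one, ← hc]
    refine Finset.prod_congr rfl fun i _ => ?_
    rw [map_zpow]
  · intro N
    filter_upwards [hm N] with k hk
    have h1 := map_dvd (algebraMap (𝓞 F) (𝓞 L)) hk
    rw [map_pow, map_natCast, map_sub, map_one, ← hval, map_prod] at h1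
    simp only [map_zpow] at h1
    exact h1

end Pool.Agent.R493.LD
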