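import Pool.Agent.R493.LD.B

set_option autoImplicit false

namespace Pool.Agent.R493.LD

open Finset NumberField Filter Topology

section

variable {L : Type} [Field L] [NumberField L]

/-- Descent for a group of automorphisms with a partition. -/
theorem partition (p : ℕ) [Fact p.Prime] {ι : Type} [Fintype ι] [Nontrivial ι]
    (G : Subgroup (L ≃ₐ[ℚ] L)) (H : ι → Subgroup (L ≃ₐ[ℚ] L)) (hle : ∀ i, H i ≤ G)
    (hpart : ∀ g ∈ G, g ≠ 1 → ∃! i, g ∈ H i)
    (hF : ∀ i, Leopoldt (IntermediateField.fixedField (H i)) p) : Leopoldt L p := by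
  classical
  apply descent p H ?_ hF
  intro u hu
  obtain ⟨i0, i1, hi⟩ := exists_pair_ne ι
  -- the norm of `G`
  have hG : IsOfFinOrder (nm G u) := by
    have h1 : (nm G u) ^ Nat.card (H i0) = ∏ g : G, nm (H i0) (act (g : L ≃ₐ[ℚ] L) u) := by
      have h2 : ∀ g : G, nm (H i0) (act (g : L ≃ₐ[ℚ] L) u) =
          ∏ h : H i0, act ((h : L ≃ₐ[ℚ] L) * (g : L ≃ₐ[ℚ] L)) u := by
        intro g
        rw [nm_apply]
        exact Finset.prod_congr rfl fun h _ => (act_mul _ _ _).symm
      rw [Finset.prod_congr rfl fun g _ => h2 g, Finset.prod_comm]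
      have h3 : ∀ h : H i0, ∏ g : G, act ((h : L ≃ₐ[ℚ] L) * (g : L ≃ₐ[ℚ] L)) u = nm G u := by
        intro h
        rw [nm_apply]
        exact Fintype.prod_equiv (Equiv.mulLeft (⟨h, hle i0 h.2⟩ : G)) _ _ (fun g => rfl)
      rw [Finset.prod_congr rfl fun h _ => h3 h, Finset.prod_const, Finset.card_univ,
        Nat.card_eq_fintype_card]
    have h4 : IsOfFinOrder ((nm G u) ^ Nat.card (H i0)) := by
      rw [h1]
      have h5 : ∀ s : Finset G, IsOfFinOrder (∏ g ∈ s, nm (H i0) (act (g : L ≃ₐ[ℚ] L) u)) := by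
        intro s
        induction s using Finset.induction_on with
        | empty => simp
        | insert a s ha ih =>
          rw [Finset.prod_insert ha]
          exact (hu i0 _).mul ih
      exact h5 _
    exact (isOfFinOrder_pow.1 h4).resolve_right Nat.card_pos.ne'
  -- the product of the norms
  have hprod : (∏ i, nm (H i) u) * u = u ^ Fintype.card ι * nm G u := by
    have h1 : ∀ K : Subgroup (L ≃ₐ[ℚ] L), nm K u = u * ∏ g : L ≃ₐ[ℚ] L,
        if g ∈ K ∧ g ≠ 1 then act g u else 1 := by
      intro K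
      rw [nm_apply]
      have h2 : ∏ h : K, act (h : L ≃ₐ[ℚ] L) u = ∏ g : L ≃ₐ[ℚ] L, if g ∈ K then act g u else 1 := by
        rw [Finset.prod_ite, Finset.prod_const_one, mul_one]
        exact (Finset.prod_subtype _ (by intro x; simp) (fun g => act g u)).symm
      rw [h2]
      have h3 : ∏ g : L ≃ₐ[ℚ] L, (if g ∈ K then act g u else 1) =
          ∏ g : L ≃ₐ[ℚ] L, ((if g = 1 then u else 1) *
            (if g ∈ K ∧ g ≠ 1 then act g u else 1)) := by
        refine Finset.prod_congr rfl fun g _ => ?_
        by_cases hg : g = 1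
        · subst hg
          simp [K.one_mem, act_one]
        · simp [hg]
      rw [h3, Finset.prod_mul_distrib]
      congr 1
      simp
    rw [Finset.prod_congr rfl fun i _ => h1 (H i), Finset.prod_mul_distrib, Finset.prod_const,
      Finset.card_univ, h1 G, Finset.prod_comm]
    have h4 : ∏ g : L ≃ₐ[ℚ] L, ∏ i, (if g ∈ H i ∧ g ≠ 1 then act g u else 1) =
        ∏ g : L ≃ₐ[ℚ] L, (if g ∈ G ∧ g ≠ 1 then act g u else 1) := by
      refine Finset.prod_congr rfl fun g _ => ?_
      by_cases hg : g = 1
      · simp [hg]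
      · by_cases hgG : g ∈ G
        · obtain ⟨i, hi1, hi2⟩ := hpart g hgG hg
          rw [Finset.prod_eq_single i]
          · simp [hi1, hg, hgG]
          · intro j _ hj
            have : g ∉ H j := fun h => hj (hi2 j h)
            simp [this]
          · intro h; exact absurd (Finset.mem_univ i) h
        · have : ∀ i, g ∉ H i := fun i h => hgG (hle i h)
          simp [this, hgG]
    rw [h4]
    simp only [mul_comm, mul_left_comm]
  -- conclusion
  have hfin : IsOfFinOrder (∏ i, nm (H i) u) := by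
    have h5 : ∀ s : Finset ι, IsOfFinOrder (∏ i ∈ s, nm (H i) u) := by
      intro s
      induction s using Finset.induction_on with
      | empty => simp
      | insert a s ha ih =>
        rw [Finset.prod_insert ha]
        have h6 := hu a 1
        rw [act_one] at h6
        exact h6.mul ih
    exact h5 _
  have hcard : 1 < Fintype.card ι := Fintype.one_lt_card
  have hpow : u ^ (Fintype.card ι - 1) = (∏ i, nm (H i) u) * (nm G u)⁻¹ := by
    have h7 : u ^ (Fintype.card ι - 1) * u = u ^ Fintype.card ι := by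
      rw [← pow_succ]
      congr 1
      omega
    rw [← h7] at hprod
    have h8 : (∏ i, nm (H i) u) * u = (u ^ (Fintype.card ι - 1) * nm G u) * u := by
      rw [hprod, mul_assoc, mul_assoc, mul_comm u (nm G u)]
    have h9 := mul_right_cancel h8
    rw [h9, mul_inv_cancel_right]
  have h10 : IsOfFinOrder (u ^ (Fintype.card ι - 1)) := by
    rw [hpow]
    exact hfin.mul hG.inv
  exact (isOfFinOrder_pow.1 h10).resolve_right (by omega)

/-- Descent to the real subfield. -/
theorem real_subfield [IsGalois ℚ L] (p : ℕ) [Fact p.Prime] (φ : L →+* ℂ)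
    (F : IntermediateField ℚ L) (hF : ∀ x : L, x ∈ F ↔ (φ x).im = 0) :
    Leopoldt L p ↔ Leopoldt F p := by
  classical
  constructor
  · exact leopoldt_sub p
  · intro h
    -- complex conjugation
    obtain ⟨c, hc⟩ : ∃ c : L ≃ₐ[ℚ] L, ∀ x, φ (c x) = starRingEnd ℂ (φ x) := by
      obtain ⟨σ, hσ⟩ := NumberField.ComplexEmbedding.exists_comp_symm_eq_of_comp_eq (k := ℚ) φ
        ((starRingEnd ℂ).comp φ) (Subsingleton.elim _ _)
      refine ⟨σ.symm, fun x => ?_⟩
      have := congrArg (fun f : L →+* ℂ => f x) hσ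
      exact this
    have hcc : c * c = 1 := by
      ext x
      apply φ.injective
      rw [AlgEquiv.mul_apply, hc, hc]
      simp
    have hmem : ∀ g ∈ Subgroup.zpowers c, g = 1 ∨ g = c := by
      intro g hg
      obtain ⟨k, rfl⟩ := Subgroup.mem_zpowers_iff.1 hg
      rcases Int.even_or_odd' k with ⟨r, hr | hr⟩
      · left
        rw [hr, zpow_mul, zpow_two, hcc, one_zpow]
      · right
        rw [hr, zpow_add, zpow_mul, zpow_two, hcc, one_zpow, one_mul, zpow_one]
    have hfix : IntermediateField.fixedField (Subgroup.zpowers c) = F := by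
      ext x
      rw [IntermediateField.mem_fixedField_iff, hF]
      constructor
      · intro h1
        have h2 := h1 c (Subgroup.mem_zpowers c)
        have h3 := hc x
        rw [h2] at h3
        exact Complex.conj_eq_iff_im.1 h3.symm
      · intro h1 g hg
        rcases hmem g hg with rfl | rfl
        · rfl
        · apply φ.injective
          rw [hc]
          exact Complex.conj_eq_iff_im.2 h1
    apply descent p (ι := Unit) (fun _ => Subgroup.zpowers c)
    swap
    · intro _
      rw [hfix]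
      exact h
    intro u hu
    have hn1 : ∀ g : L ≃ₐ[ℚ] L, ‖φ (algebraMap (𝓞 L) L (act g u : 𝓞 L))‖ = 1 := by
      intro g
      have h1 := hu () g
      rw [isOfFinOrder_iff_pow_eq_one] at h1
      obtain ⟨w, hw, h2⟩ := h1
      have h3 : ∀ v : (𝓞 L)ˣ, ‖φ (algebraMap (𝓞 L) L (nm (Subgroup.zpowers c) v : 𝓞 L))‖ =
          ‖φ (algebraMap (𝓞 L) L (v : 𝓞 L))‖ ^ Nat.card (Subgroup.zpowers c) := by
        intro v
        rw [nm_apply, Units.coe_prod, map_prod, map_prod, norm_prod]
        have h4 : ∀ k : Subgroup.zpowers c,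
            ‖φ (algebraMap (𝓞 L) L (act (k : L ≃ₐ[ℚ] L) v : 𝓞 L))‖ =
              ‖φ (algebraMap (𝓞 L) L (v : 𝓞 L))‖ := by
          intro k
          rw [act_coe]
          rcases hmem k k.2 with h5 | h5
          · rw [h5]; rfl
          · rw [h5, hc, RCLike.norm_conj]
        rw [Finset.prod_congr rfl fun k _ => h4 k, Finset.prod_const, Finset.card_univ,
          Nat.card_eq_fintype_card]
      have h6 := congrArg (fun v : (𝓞 L)ˣ => ‖φ (algebraMap (𝓞 L) L (v : 𝓞 L))‖) h2
      simp only [Units.val_pow_eq_pow_val, map_pow, norm_pow, Units.val_one, map_one,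
        norm_one] at h6
      rw [h3, ← pow_mul] at h6
      exact (pow_eq_one_iff_of_nonneg (norm_nonneg _)
        (mul_ne_zero Nat.card_pos.ne' hw.ne')).1 h6
    have hall : ∀ ψ : L →+* ℂ, ‖ψ (algebraMap (𝓞 L) L (u : 𝓞 L))‖ = 1 := by
      intro ψ
      obtain ⟨σ, hσ⟩ := NumberField.ComplexEmbedding.exists_comp_symm_eq_of_comp_eq (k := ℚ) φ ψ
        (Subsingleton.elim _ _)
      have h1 := congrArg (fun f : L →+* ℂ => f (algebraMap (𝓞 L) L (u : 𝓞 L))) hσ
      have h2 : φ (σ.symm (algebraMap (𝓞 L) L (u : 𝓞 L))) =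
          ψ (algebraMap (𝓞 L) L (u : 𝓞 L)) := h1
      rw [← h2, ← act_coe]
      exact hn1 _
    obtain ⟨k, hk, h1⟩ := NumberField.Embeddings.pow_eq_one_of_norm_eq_one L ℂ
      (RingOfIntegers.isIntegral_coe (u : 𝓞 L)) hall
    rw [isOfFinOrder_iff_pow_eq_one]
    refine ⟨k, hk, ?_⟩
    apply units_ext
    rw [Units.val_pow_eq_pow_val, map_pow, Units.val_one, map_one]
    exact h1

end

end Pool.Agent.R493.LD
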