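import Pool.Agent.R493.LD.C

set_option autoImplicit false

namespace Pool.Agent.R493.LD

open Finset NumberField

/-- Left translation on `ℚ[G]`. -/
noncomputable def lreg (G : Type) [Group G] : Representation ℚ G (G →₀ ℚ) where
  toFun g := Finsupp.lmapDomain ℚ ℚ (g * ·)
  map_one' := by
    ext x
    simp
  map_mul' g h := by
    apply Finsupp.lhom_ext'
    intro x
    ext
    simp [Finsupp.mapDomain_single, mul_assoc]

theorem lreg_single {G : Type} [Group G] (g x : G) (r : ℚ) :
    lreg G g (Finsupp.single x r) = Finsupp.single (g * x) r := by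
  simp [lreg, Finsupp.mapDomain_single]

/-- Either there is a representation where the elements of `T` have no nonzero fixed vectors, or
there is a norm relation. -/
theorem fpf_or_relation (G : Type) [Group G] [Fintype G] [DecidableEq G] (T : Set G) [Fintype T] :
    (∃ (W : Type) (_ : AddCommGroup W) (_ : Module ℚ W) (_ : FiniteDimensional ℚ W)
      (ρ : Representation ℚ G W), Nontrivial W ∧ ∀ h ∈ T, ∀ w, ρ h w = w → w = 0) ∨
    (∃ (d : ℕ) (c : G × T × G → ℤ), 0 < d ∧ ∀ g : G, ∑ x : G × T × G,
      c x * (((range (orderOf (x.2.1 : G))).filter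
        (fun i => x.1 * (x.2.1 : G) ^ i * x.2.2 = g)).card : ℤ) = if g = 1 then (d : ℤ) else 0) := by
  classical
  let v : G × T × G → (G →₀ ℚ) := fun x =>
    ∑ i ∈ range (orderOf (x.2.1 : G)), Finsupp.single (x.1 * (x.2.1 : G) ^ i * x.2.2) 1
  let J : Submodule ℚ (G →₀ ℚ) := Submodule.span ℚ (Set.range v)
  by_cases h1 : (Finsupp.single 1 1 : G →₀ ℚ) ∈ J
  · right
    obtain ⟨c, hc⟩ := (Submodule.mem_span_range_iff_exists_fun ℚ).1 h1
    let d : ℕ := ∏ x, (c x).den
    have hd : 0 < d := Finset.prod_pos fun x _ => (c x).pos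
    have hz : ∀ x, ∃ z : ℤ, (z : ℚ) = d * c x := by
      intro x
      obtain ⟨k, hk⟩ : (c x).den ∣ d := Finset.dvd_prod_of_mem _ (Finset.mem_univ x)
      refine ⟨k * (c x).num, ?_⟩
      rw [hk]
      push_cast
      have h2 : ((c x).den : ℚ) * c x = (c x).num := Rat.den_mul_eq_num (c x)
      rw [← h2]
      ring
    choose z hz using hz
    refine ⟨d, z, hd, fun g => ?_⟩
    have h2 := congrArg (fun f : G →₀ ℚ => f g) hc
    simp only [Finsupp.coe_finsetSum, Finset.sum_apply, Finsupp.smul_apply, smul_eq_mul] at h2
    have h3 : ∀ x : G × T × G, v x g = (((range (orderOf (x.2.1 : G))).filter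
        (fun i => x.1 * (x.2.1 : G) ^ i * x.2.2 = g)).card : ℚ) := by
      intro x
      simp only [v]
      rw [Finsupp.finsetSum_apply, Finset.card_filter]
      push_cast
      refine Finset.sum_congr rfl fun i _ => ?_
      rw [Finsupp.single_apply]
    have h4 : ((∑ x : G × T × G, z x * (((range (orderOf (x.2.1 : G))).filter
        (fun i => x.1 * (x.2.1 : G) ^ i * x.2.2 = g)).card : ℤ) : ℤ) : ℚ) =
        ((if g = 1 then (d : ℤ) else 0 : ℤ) : ℚ) := by
      push_cast
      have h5 : ∀ x : G × T × G, (z x : ℚ) * (((range (orderOf (x.2.1 : G))).filter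
        (fun i => x.1 * (x.2.1 : G) ^ i * x.2.2 = g)).card : ℚ) = d * (c x * v x g) := by
        intro x
        rw [hz, h3]
        ring
      rw [Finset.sum_congr rfl fun x _ => h5 x, ← Finset.mul_sum, h2, Finsupp.single_apply]
      by_cases hg : g = 1
      · simp [hg]
      · simp [hg, Ne.symm hg]
    exact_mod_cast h4
  · left
    have hv : ∀ (g : G) (x : G × T × G), lreg G g (v x) = v (g * x.1, x.2.1, x.2.2) := by
      intro g x
      simp only [v]
      rw [map_sum]
      refine Finset.sum_congr rfl fun i _ => ?_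
      rw [lreg_single]
      simp only [mul_assoc]
    have hJ : ∀ g, J ≤ J.comap (lreg G g) := by
      intro g
      apply Submodule.span_le.2
      rintro _ ⟨x, rfl⟩
      show lreg G g (v x) ∈ J
      rw [hv]
      exact Submodule.subset_span ⟨_, rfl⟩
    refine ⟨(G →₀ ℚ) ⧸ J, inferInstance, inferInstance, inferInstance,
      (lreg G).quotient J hJ, ?_, ?_⟩
    · rw [Submodule.Quotient.nontrivial_iff]
      intro h
      exact h1 (h ▸ Submodule.mem_top)
    · intro h hT w hw
      -- the norm kills everything
      have hN : ∀ y : G →₀ ℚ, ∑ i ∈ range (orderOf h), lreg G (h ^ i) y ∈ J := by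
        intro y
        induction y using Finsupp.induction_linear with
        | zero => simp
        | add a b ha hb =>
          simp only [map_add, Finset.sum_add_distrib]
          exact J.add_mem ha hb
        | single b r =>
          have h2 : ∑ i ∈ range (orderOf h), lreg G (h ^ i) (Finsupp.single b r) =
              r • v (1, ⟨h, hT⟩, b) := by
            simp only [v]
            rw [Finset.smul_sum]
            refine Finset.sum_congr rfl fun i _ => ?_
            rw [lreg_single, one_mul, Finsupp.smul_single, smul_eq_mul, mul_one]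
          rw [h2]
          exact J.smul_mem _ (Submodule.subset_span ⟨_, rfl⟩)
      obtain ⟨y, rfl⟩ := J.mkQ_surjective w
      have h3 : ∀ i : ℕ, (lreg G).quotient J hJ (h ^ i) (J.mkQ y) = J.mkQ y := by
        intro i
        induction i with
        | zero => simp
        | succ i ih => rw [pow_succ, map_mul, Module.End.mul_apply, hw, ih]
      have h4 : ∀ i : ℕ, (lreg G).quotient J hJ (h ^ i) (J.mkQ y) = J.mkQ (lreg G (h ^ i) y) := by
        intro i
        rfl
      have h5 : ∑ i ∈ range (orderOf h), J.mkQ (lreg G (h ^ i) y) = 0 := by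
        rw [← map_sum]
        exact (Submodule.Quotient.mk_eq_zero J).2 (hN y)
      rw [Finset.sum_congr rfl fun i _ => ((h4 i).symm.trans (h3 i)), Finset.sum_const,
        Finset.card_range] at h5
      have h6 : orderOf h ≠ 0 := (orderOf_pos h).ne'
      rw [← Nat.cast_smul_eq_nsmul ℚ] at h5
      exact (smul_eq_zero.1 h5).resolve_left (by exact_mod_cast h6)

end Pool.Agent.R493.LD
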