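import Pool.Agent.R493.LD.D

set_option autoImplicit false

namespace Pool.Agent.R493.LD

open Finset NumberField

section

variable {L : Type} [Field L] [NumberField L]

theorem nm_zpowers (h : L ≃ₐ[ℚ] L) (u : (𝓞 L)ˣ) :
    nm (Subgroup.zpowers h) u = ∏ i ∈ range (orderOf h), act (h ^ i) u := by
  classical
  rw [nm_apply, ← Fin.prod_univ_eq_prod_range (fun i => act (h ^ i) u) (orderOf h)]
  exact (Fintype.prod_equiv (finEquivZPowers (isOfFinOrder_of_finite h)) _ _ (fun i => rfl)).symm

/-- A norm relation detects torsion. -/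
theorem crit_of_relation (G : Subgroup (L ≃ₐ[ℚ] L)) [Fintype G] [DecidableEq G] (T : Set G)
    [Fintype T] (d : ℕ) (c : G × T × G → ℤ) (hd : 0 < d)
    (hc : ∀ g : G, ∑ x : G × T × G,
      c x * (((range (orderOf (x.2.1 : G))).filter
        (fun i => x.1 * (x.2.1 : G) ^ i * x.2.2 = g)).card : ℤ) = if g = 1 then (d : ℤ) else 0)
    (u : (𝓞 L)ˣ) (hu : ∀ (t : T) (g : L ≃ₐ[ℚ] L),
      IsOfFinOrder (nm (Subgroup.zpowers (((t : G) : L ≃ₐ[ℚ] L))) (act g u))) :
    IsOfFinOrder u := by
  classical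
  have h1 : ∀ x : G × T × G,
      act (x.1 : L ≃ₐ[ℚ] L) (nm (Subgroup.zpowers (((x.2.1 : G) : L ≃ₐ[ℚ] L)))
        (act (x.2.2 : L ≃ₐ[ℚ] L) u)) = ∏ g : G, (act (g : L ≃ₐ[ℚ] L) u) ^
          (((range (orderOf (x.2.1 : G))).filter
            (fun i => x.1 * (x.2.1 : G) ^ i * x.2.2 = g)).card) := by
    intro x
    rw [nm_zpowers, map_prod, Subgroup.orderOf_coe]
    have h2 : ∀ i, act (x.1 : L ≃ₐ[ℚ] L) (act (((x.2.1 : G) : L ≃ₐ[ℚ] L) ^ i)
        (act (x.2.2 : L ≃ₐ[ℚ] L) u)) =
          act ((x.1 * (x.2.1 : G) ^ i * x.2.2 : G) : L ≃ₐ[ℚ] L) u := by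
      intro i
      rw [← act_mul, ← act_mul]
      congr 1
    rw [Finset.prod_congr rfl fun i _ => h2 i]
    rw [← Finset.prod_fiberwise_of_maps_to (s := range (orderOf (x.2.1 : G)))
      (t := (Finset.univ : Finset G)) (g := fun i => x.1 * (x.2.1 : G) ^ i * x.2.2)
      (fun i _ => Finset.mem_univ _)]
    refine Finset.prod_congr rfl fun g _ => ?_
    rw [Finset.prod_congr rfl (g := fun _ => act (g : L ≃ₐ[ℚ] L) u), Finset.prod_const]
    intro i hi
    rw [(Finset.mem_filter.1 hi).2]
  have h2 : ∏ x : G × T × G,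
      (act (x.1 : L ≃ₐ[ℚ] L) (nm (Subgroup.zpowers (((x.2.1 : G) : L ≃ₐ[ℚ] L)))
        (act (x.2.2 : L ≃ₐ[ℚ] L) u))) ^ (c x) = u ^ d := by
    have h3 : ∀ x : G × T × G,
        (act (x.1 : L ≃ₐ[ℚ] L) (nm (Subgroup.zpowers (((x.2.1 : G) : L ≃ₐ[ℚ] L)))
        (act (x.2.2 : L ≃ₐ[ℚ] L) u))) ^ (c x) = ∏ g : G, (act (g : L ≃ₐ[ℚ] L) u) ^
          (c x * (((range (orderOf (x.2.1 : G))).filter
            (fun i => x.1 * (x.2.1 : G) ^ i * x.2.2 = g)).card : ℤ)) := by
      intro x
      rw [h1, ← Finset.prod_zpow]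
      refine Finset.prod_congr rfl fun g _ => ?_
      rw [← zpow_natCast, ← zpow_mul, mul_comm]
    rw [Finset.prod_congr rfl fun x _ => h3 x, Finset.prod_comm]
    have h4 : ∀ g : G, ∏ x : G × T × G, (act (g : L ≃ₐ[ℚ] L) u) ^
          (c x * (((range (orderOf (x.2.1 : G))).filter
            (fun i => x.1 * (x.2.1 : G) ^ i * x.2.2 = g)).card : ℤ)) =
        if g = 1 then u ^ d else 1 := by
      intro g
      rw [← zpow_sum', hc g]
      by_cases hg : g = 1
      · subst hg
        simp [act_one]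
      · simp [hg]
    rw [Finset.prod_congr rfl fun g _ => h4 g]
    simp
  have h3 : IsOfFinOrder (u ^ d) := by
    rw [← h2]
    have h5 : ∀ s : Finset (G × T × G), IsOfFinOrder (∏ x ∈ s,
        (act (x.1 : L ≃ₐ[ℚ] L) (nm (Subgroup.zpowers (((x.2.1 : G) : L ≃ₐ[ℚ] L)))
        (act (x.2.2 : L ≃ₐ[ℚ] L) u))) ^ (c x)) := by
      intro s
      induction s using Finset.induction_on with
      | empty => simp
      | insert a s ha ih =>
        rw [Finset.prod_insert ha]
        exact (IsOfFinOrder.zpow (MonoidHom.isOfFinOrder _ (hu a.2.1 _))).mul ih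
    exact h5 _
  exact (isOfFinOrder_pow.1 h3).resolve_right hd.ne'

/-- If Leopoldt's conjecture holds for the fixed fields of all subgroups of prime order of `G`
but fails for `L`, then `G` has a nonzero representation without fixed points. -/
theorem fpf_of_failure (p : ℕ) [Fact p.Prime] (G : Subgroup (L ≃ₐ[ℚ] L))
    (hG : ∀ H : Subgroup (L ≃ₐ[ℚ] L), H ≤ G → (Nat.card H).Prime →
      Leopoldt (IntermediateField.fixedField H) p)
    (hL : ¬ Leopoldt L p) :
    ∃ (W : Type) (_ : AddCommGroup W) (_ : Module ℚ W) (_ : FiniteDimensional ℚ W)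
      (ρ : Representation ℚ G W), Nontrivial W ∧ ∀ g : G, g ≠ 1 → ∀ w, ρ g w = w → w = 0 := by
  classical
  have : Fintype G := Fintype.ofFinite G
  let T : Set G := {t | (orderOf t).Prime}
  have : Fintype T := Fintype.ofFinite T
  rcases fpf_or_relation G T with ⟨W, i1, i2, i3, ρ, hW, hρ⟩ | ⟨d, c, hd, hc⟩
  · refine ⟨W, i1, i2, i3, ρ, hW, fun g hg w hw => ?_⟩
    have h1 : orderOf g ≠ 1 := by rwa [Ne, orderOf_eq_one_iff]
    have hq := Nat.minFac_prime h1
    obtain ⟨k, hk⟩ := Nat.minFac_dvd (orderOf g)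
    have hk0 : k ≠ 0 := by
      rintro rfl
      rw [mul_zero] at hk
      exact (orderOf_pos g).ne' hk
    have h2 : orderOf (g ^ k) = (orderOf g).minFac := by
      rw [orderOf_pow' g hk0]
      have h3 : Nat.gcd (orderOf g) k = k := Nat.gcd_eq_right ⟨_, by rw [mul_comm]; exact hk⟩
      rw [h3]
      conv_lhs => rw [hk]
      exact Nat.mul_div_cancel _ (Nat.pos_of_ne_zero hk0)
    have h3 : g ^ k ∈ T := by
      show (orderOf (g ^ k)).Prime
      rw [h2]; exact hq
    have h4 : ∀ i : ℕ, ρ (g ^ i) w = w := by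
      intro i
      induction i with
      | zero => simp
      | succ i ih => rw [pow_succ, map_mul, Module.End.mul_apply, hw, ih]
    exact hρ _ h3 w (h4 k)
  · exfalso
    apply hL
    apply descent p (ι := T) (fun t => Subgroup.zpowers (((t : G) : L ≃ₐ[ℚ] L)))
    · intro u hu
      exact crit_of_relation G T d c hd hc u (fun t g => hu t g)
    · intro t
      apply hG
      · rw [Subgroup.zpowers_le]
        exact (t : G).2
      · rw [Nat.card_zpowers, Subgroup.orderOf_coe]
        exact t.2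

/-- Under the same hypotheses every subgroup of `G` whose order is a product of two primes is
cyclic. -/
theorem cyclic_of_failure (p : ℕ) [Fact p.Prime] (G : Subgroup (L ≃ₐ[ℚ] L))
    (hG : ∀ H : Subgroup (L ≃ₐ[ℚ] L), H ≤ G → (Nat.card H).Prime →
      Leopoldt (IntermediateField.fixedField H) p)
    (hL : ¬ Leopoldt L p) (P : Subgroup (L ≃ₐ[ℚ] L)) (hP : P ≤ G) (l q : ℕ) (hl : l.Prime)
    (hq : q.Prime) (hcard : Nat.card P = l * q) : IsCyclic P := by
  classical
  by_contra hcyc
  apply hL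
  -- every nontrivial element has prime order
  have hord : ∀ g ∈ P, g ≠ 1 → (orderOf g).Prime := by
    intro g hg hg1
    have h1 : orderOf g ∣ l * q := by
      rw [← hcard, ← Subgroup.orderOf_mk g hg]
      exact orderOf_dvd_natCard _
    have h2 : orderOf g ≠ 1 := by rwa [Ne, orderOf_eq_one_iff]
    have h3 : orderOf g ≠ l * q := by
      intro h3
      apply hcyc
      apply isCyclic_of_orderOf_eq_card (⟨g, hg⟩ : P)
      rw [Subgroup.orderOf_mk, h3, hcard]
    rcases (Nat.dvd_mul.1 h1) with ⟨a, b, ha, hb, hab⟩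
    rcases (Nat.dvd_prime hl).1 ha with rfl | rfl
    · rcases (Nat.dvd_prime hq).1 hb with rfl | rfl
      · exact absurd hab.symm (by simpa using h2)
      · rw [← hab, one_mul]; exact hq
    · rcases (Nat.dvd_prime hq).1 hb with rfl | rfl
      · rw [← hab, mul_one]; exact hl
      · exact absurd hab.symm h3
  -- the partition
  let S : Set (Subgroup (L ≃ₐ[ℚ] L)) := {H | ∃ g ∈ P, g ≠ 1 ∧ H = Subgroup.zpowers g}
  have : Fintype S := Fintype.ofFinite S
  have hP1 : 1 < Nat.card P := by
    rw [hcard]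
    exact Nat.one_lt_mul_iff.2 ⟨hl.pos, hq.pos, Or.inl hl.one_lt⟩
  have hnt : Nontrivial P := Finite.one_lt_card_iff_nontrivial.1 hP1
  obtain ⟨⟨x, hxP⟩, hx⟩ := exists_ne (1 : P)
  have hx1 : x ≠ 1 := fun h => hx (Subtype.ext h)
  -- prime order subgroups
  have hzp : ∀ g ∈ P, ∀ h ∈ P, g ≠ 1 → h ≠ 1 → g ∈ Subgroup.zpowers h →
      Subgroup.zpowers g = Subgroup.zpowers h := by
    intro g hg h hh hg1 hh1 hgh
    have h1 : Subgroup.zpowers g ≤ Subgroup.zpowers h := Subgroup.zpowers_le.2 hgh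
    have h2 : Nat.card (Subgroup.zpowers g) ∣ Nat.card (Subgroup.zpowers h) :=
      Subgroup.card_dvd_of_le h1
    rw [Nat.card_zpowers, Nat.card_zpowers] at h2
    have h3 := ((Nat.prime_dvd_prime_iff_eq (hord g hg hg1) (hord h hh hh1)).1 h2)
    apply Subgroup.eq_of_le_of_card_ge h1
    rw [Nat.card_zpowers, Nat.card_zpowers, h3]
  have hex : ∃ y ∈ P, y ∉ Subgroup.zpowers x := by
    by_contra hcon
    push Not at hcon
    apply hcyc
    refine ⟨⟨⟨x, hxP⟩, fun y => ?_⟩⟩
    obtain ⟨k, hk⟩ := Subgroup.mem_zpowers_iff.1 (hcon y y.2)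
    exact Subgroup.mem_zpowers_iff.2 ⟨k, Subtype.ext (by simpa using hk)⟩
  obtain ⟨y, hyP, hy⟩ := hex
  have hy1 : y ≠ 1 := by
    rintro rfl
    exact hy (Subgroup.one_mem _)
  have : Nontrivial S := by
    refine ⟨⟨⟨Subgroup.zpowers x, x, hxP, hx1, rfl⟩, ⟨Subgroup.zpowers y, y, hyP, hy1, rfl⟩, ?_⟩⟩
    intro h
    have h1 : Subgroup.zpowers x = Subgroup.zpowers y := congrArg Subtype.val h
    exact hy (h1 ▸ Subgroup.mem_zpowers y)
  apply partition p P (ι := S) (fun H => (H : Subgroup (L ≃ₐ[ℚ] L)))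
  · rintro ⟨H, g, hg, hg1, rfl⟩
    exact Subgroup.zpowers_le.2 hg
  · intro g hg hg1
    refine ⟨⟨Subgroup.zpowers g, g, hg, hg1, rfl⟩, Subgroup.mem_zpowers g, ?_⟩
    rintro ⟨H, h, hh, hh1, rfl⟩ hgh
    exact Subtype.ext (hzp g hg h hh hg1 hh1 hgh).symm
  · rintro ⟨H, g, hg, hg1, rfl⟩
    apply hG
    · exact (Subgroup.zpowers_le.2 hg).trans hP
    · rw [Nat.card_zpowers]
      exact hord g hg hg1

/-- Complex conjugation for a complex embedding of a Galois number field. -/
theorem exists_conj [IsGalois ℚ L] (φ : L →+* ℂ) : ∃ c : L ≃ₐ[ℚ] L,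
    (∀ x, φ (c x) = starRingEnd ℂ (φ x)) ∧ c * c = 1 ∧
      ∀ y : L, y ∈ IntermediateField.fixedField (Subgroup.zpowers c) ↔ (φ y).im = 0 := by
  obtain ⟨c, hc⟩ : ∃ c : L ≃ₐ[ℚ] L, ∀ x, φ (c x) = starRingEnd ℂ (φ x) := by
    obtain ⟨σ, hσ⟩ := NumberField.ComplexEmbedding.exists_comp_symm_eq_of_comp_eq (k := ℚ) φ
      ((starRingEnd ℂ).comp φ) (Subsingleton.elim _ _)
    refine ⟨σ.symm, fun x => ?_⟩
    exact congrArg (fun f : L →+* ℂ => f x) hσ
  refine ⟨c, hc, ?_, ?_⟩
  · ext x
    apply φ.injective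
    rw [AlgEquiv.mul_apply, hc, hc]
    simp
  · intro y
    rw [IntermediateField.mem_fixedField_iff]
    constructor
    · intro h1
      have h2 := h1 c (Subgroup.mem_zpowers c)
      have h3 := hc y
      rw [h2] at h3
      exact Complex.conj_eq_iff_im.1 h3.symm
    · intro h1 g hg
      have h2 : c y = y := by
        apply φ.injective
        rw [hc]
        exact Complex.conj_eq_iff_im.2 h1
      have h3 : Subgroup.zpowers c ≤ MulAction.stabilizer (L ≃ₐ[ℚ] L) y := by
        rw [Subgroup.zpowers_le]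
        exact h2
      exact h3 hg

/-- A Galois number field for which Leopoldt's conjecture fails, while it holds for the fixed
fields of all automorphisms of order two, is totally real. -/
theorem totally_real_of_failure [IsGalois ℚ L] (p : ℕ) [Fact p.Prime]
    (hG : ∀ H : Subgroup (L ≃ₐ[ℚ] L), Nat.card H = 2 →
      Leopoldt (IntermediateField.fixedField H) p)
    (hL : ¬ Leopoldt L p) (φ : L →+* ℂ) (x : L) : (φ x).im = 0 := by
  by_contra hx
  apply hL
  obtain ⟨c, hc, hcc, hfix⟩ := exists_conj φ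
  have hc1 : c ≠ 1 := by
    rintro rfl
    have h1 := hc x
    exact hx (Complex.conj_eq_iff_im.1 h1.symm)
  have hord : orderOf c = 2 := orderOf_eq_prime (by rw [pow_two, hcc]) hc1
  exact (real_subfield p φ _ hfix).2 (hG _ (by rw [Nat.card_zpowers, hord]))

end

/-- Leopoldt's conjecture for all number fields is equivalent to Leopoldt's conjecture for all
number fields with a real embedding. -/
theorem all_iff_real (p : ℕ) [Fact p.Prime] :
    (∀ (K : Type) [Field K] [NumberField K], Leopoldt K p) ↔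
      ∀ (K : Type) [Field K] [NumberField K], Nonempty (K →+* ℝ) → Leopoldt K p := by
  constructor
  · intro h K _ _ _
    exact h K
  · intro h K _ _
    -- the Galois closure
    have hfd : FiniteDimensional ℚ (IntermediateField.normalClosure ℚ K (AlgebraicClosure K)) :=
      inferInstance
    have hN : NumberField (IntermediateField.normalClosure ℚ K (AlgebraicClosure K)) :=
      { to_charZero := inferInstance, to_finiteDimensional := hfd }
    have halg : Algebra.IsAlgebraic ℚ (AlgebraicClosure K) :=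
      Algebra.IsAlgebraic.trans ℚ K (AlgebraicClosure K)
    have hcl : IsAlgClosure ℚ (AlgebraicClosure K) := ⟨inferInstance, halg⟩
    have hno : Normal ℚ (AlgebraicClosure K) := IsAlgClosure.normal ℚ (AlgebraicClosure K)
    have hnorm : Normal ℚ (IntermediateField.normalClosure ℚ K (AlgebraicClosure K)) := by
      have h1 := normalClosure.normal (F := ℚ) (K := K) (L := AlgebraicClosure K)
      convert h1
      exact Subsingleton.elim _ _
    have hgal : IsGalois ℚ (IntermediateField.normalClosure ℚ K (AlgebraicClosure K)) := ⟨⟩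
    apply leopoldt_sub (F := K)
      (L := (IntermediateField.normalClosure ℚ K (AlgebraicClosure K))) p
    obtain ⟨φ⟩ : Nonempty ((IntermediateField.normalClosure ℚ K (AlgebraicClosure K)) →+* ℂ) :=
      inferInstance
    obtain ⟨c, hc, hcc, hfix⟩ := exists_conj φ
    rw [real_subfield p φ _ hfix]
    apply h
    have him : ∀ x : IntermediateField.fixedField (Subgroup.zpowers c),
        (φ (x : IntermediateField.normalClosure ℚ K (AlgebraicClosure K))).im = 0 :=
      fun x => (hfix x).1 x.2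
    exact ⟨{
      toFun := fun x =>
        (φ (x : IntermediateField.normalClosure ℚ K (AlgebraicClosure K))).re
      map_one' := by simp
      map_mul' := fun x y => by
        have h1 := him x
        simp [Complex.mul_re, h1]
      map_zero' := by simp
      map_add' := fun x y => by simp }⟩

end Pool.Agent.R493.LD
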