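import Pool.Agent.R493.LD.E

set_option autoImplicit false

namespace Pool.Agent.R493.LD

open Finset NumberField

/-- If Leopoldt's conjecture fails for `p`, there is a minimal counterexample with a real
embedding. -/
theorem exists_minimal (p : ℕ) [Fact p.Prime]
    (h : ∃ (K : Type) (_ : Field K) (_ : NumberField K), ¬ Leopoldt K p) :
    ∃ (M : Type) (_ : Field M) (_ : NumberField M), ¬ Leopoldt M p ∧ Nonempty (M →+* ℝ) ∧
      ∀ F : IntermediateField ℚ M, F ≠ ⊤ → Leopoldt F p := by
  classical
  have h1 : ∃ n : ℕ, ∃ (K : Type) (_ : Field K) (_ : NumberField K), ¬ Leopoldt K p ∧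
      Nonempty (K →+* ℝ) ∧ Module.finrank ℚ K = n := by
    by_contra hcon
    obtain ⟨K, i1, i2, hK⟩ := h
    apply hK
    refine (all_iff_real p).2 ?_ K
    intro K' _ _ hr
    by_contra hK'
    exact hcon ⟨_, K', inferInstance, inferInstance, hK', hr, rfl⟩
  obtain ⟨K, i1, i2, hK, ⟨σ⟩, hn⟩ := Nat.find_spec h1
  refine ⟨K, i1, i2, hK, ⟨σ⟩, fun F hF => ?_⟩
  by_contra hFL
  have hlt : Module.finrank ℚ F < Nat.find h1 := by
    rw [← hn]
    have h2 : Module.finrank ℚ F * Module.finrank F K = Module.finrank ℚ K :=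
      Module.finrank_mul_finrank ℚ F K
    have h3 : Module.finrank F K ≠ 1 := by
      intro h3
      exact hF (IntermediateField.finrank_eq_one_iff_eq_top.1 h3)
    have h4 : 0 < Module.finrank F K := Module.finrank_pos
    have h5 : 0 < Module.finrank ℚ F := Module.finrank_pos
    rw [← h2]
    have h6 : 2 ≤ Module.finrank F K := by omega
    nlinarith
  exact Nat.find_min h1 hlt ⟨F, inferInstance, inferInstance, hFL,
    ⟨σ.comp (algebraMap F K)⟩, rfl⟩

end Pool.Agent.R493.LD
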